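import Pool.Agent.H90.CMR.CurvG

/-! Cohen-Macaulay type of `S/IJ` when the embedding dimension of `S/(I+J)` is at most
`dim S/IJ + 1`. -/

namespace Pool.Agent.Results.MP_8f10f1_al.CurvilinearSum

open Pool.Agent.H6.CMT MvPolynomial

/-- `S/IJ` is Cohen-Macaulay (`ys` is a regular sequence in `m` of length `n - ht IJ`),
`dim_k m/(I+J+m^2) ≤ d + 1`: the type of `S/IJ` is at least `ht IJ`; in the Artinian case it is at
least `μ(I) + μ(J) - n`. -/
theorem result (k : Type*) [Field k] (n : ℕ)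
    (I J : Ideal (MvPolynomial (Fin n) k)) (hI : I ≤ irr k n) (hJ : J ≤ irr k n)
    (ys : List (MvPolynomial (Fin n) k)) (hk : ys = [] ∨ Infinite k)
    (hys : ∀ y ∈ ys, y ∈ irr k n)
    (hreg : RingTheory.Sequence.IsRegular (MvPolynomial (Fin n) k ⧸ (I * J)) ys)
    (hdim : (I * J).height + ys.length = n)
    (hcurv : Module.finrank k (MvPolynomial (Fin n) k ⧸ (I ⊔ J ⊔ irr k n ^ 2)) ≤
      ys.length + 2) :
    (I * J).height ≤ cmType (I * J ⊔ Ideal.ofList ys) ∧
    ∀ c : ℕ, irr k n ^ c ≤ I * J → 0 < n →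
      Module.finrank k (MvPolynomial (Fin n) k ⧸ (irr k n * I)) +
        Module.finrank k (MvPolynomial (Fin n) k ⧸ (irr k n * J)) ≤
      Module.finrank k (MvPolynomial (Fin n) k ⧸ I) +
        Module.finrank k (MvPolynomial (Fin n) k ⧸ J) + n + cmType (I * J) := by
  refine ⟨Pool.Agent.H90.CMR.curv_general I J hI hJ ys hk hys hreg.1 hdim hcurv, ?_⟩
  intro c hc hn
  have h0 : ys.length = 0 := Pool.Agent.H90.CMR.length_zero I J c hc ys hdim
  rw [h0, zero_add] at hcurv
  obtain ⟨x, hx, hxIJ⟩ := Pool.Agent.H90.CMR.exists_curv I J hI hJ c hc hcurv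
  have h1 := soc_lower I J x hI hJ hx hxIJ c hc hn
  rw [cmType_eq]
  exact h1

end Pool.Agent.Results.MP_8f10f1_al.CurvilinearSum
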