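import Pool.Agent.H90.CMR.GBG

/-! A lower bound for the Cohen-Macaulay type of `S/IJ`, for all pairs of ideals. -/

namespace Pool.Agent.Results.MP_8f10f1_al.GeneralBound

open Pool.Agent.H6.CMT MvPolynomial Pool.Agent.H90.CMR

/-- `S/IJ` Cohen-Macaulay of positive codimension `h` (`ys`: a regular sequence in `m` of length
`d = n - h`): there are `d` linear forms `zs` such that `S/(IJ+(zs))` has finite length at `m` and,
with `l` the length at `m`, `l(S/(IJ+(zs))) ≥ l(S/(I+(zs))) + l(S/(J+(zs))) + h - 1` and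
`(t(S/IJ) - 1) l(S/(I+J+(zs))) ≥ h - 1`. -/
theorem result (k : Type*) [Field k] (n h : ℕ) (hh : 0 < h)
    (I J : Ideal (MvPolynomial (Fin n) k)) (hI : I ≤ irr k n) (hJ : J ≤ irr k n)
    (ys : List (MvPolynomial (Fin n) k)) (hk : ys = [] ∨ Infinite k)
    (hys : ∀ y ∈ ys, y ∈ irr k n)
    (hreg : RingTheory.Sequence.IsRegular (MvPolynomial (Fin n) k ⧸ (I * J)) ys)
    (hht : (I * J).height = h) (hdim : h + ys.length = n) :
    ∃ zs : List (MvPolynomial (Fin n) k), zs.length = ys.length ∧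
      (∀ z ∈ zs, ∃ a : Fin n → k, z = ∑ i, C (a i) * X i) ∧
      (∃ c : ℕ, irr k n ^ c ≤ cl (irr k n) (I * J ⊔ Ideal.ofList zs)) ∧
      Module.finrank k (MvPolynomial (Fin n) k ⧸ cl (irr k n) (I ⊔ Ideal.ofList zs)) +
        Module.finrank k (MvPolynomial (Fin n) k ⧸ cl (irr k n) (J ⊔ Ideal.ofList zs)) + h ≤
        Module.finrank k (MvPolynomial (Fin n) k ⧸ cl (irr k n) (I * J ⊔ Ideal.ofList zs)) + 1 ∧
      Module.finrank k (MvPolynomial (Fin n) k ⧸ cl (irr k n) (I ⊔ J ⊔ Ideal.ofList zs)) + h ≤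
        cmType (I * J ⊔ Ideal.ofList ys) * Module.finrank k
          (MvPolynomial (Fin n) k ⧸ cl (irr k n) (I ⊔ J ⊔ Ideal.ofList zs)) + 1 := by
  obtain ⟨zs, h1, h2, h3⟩ := gb_general I J hI hJ ys hk hys hreg.1 h hh hht hdim
  refine ⟨zs, h1, fun z hz => ?_, h3⟩
  obtain ⟨a, ha⟩ := h2 z hz
  exact ⟨a, ha.symm⟩

end Pool.Agent.Results.MP_8f10f1_al.GeneralBound
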