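import Pool.Agent.H6.CMT.Dim

/-! Cohen-Macaulay type of `S/KJ` when `J` is integrally closed. -/

namespace Pool.Agent.Results.MP_8f10f1_al.IntegrallyClosedFactor

open Pool.Agent.H6.CMT MvPolynomial

theorem result (k : Type*) [Field k] (h : ℕ) (hh : 0 < h)
    (K J : Ideal (MvPolynomial (Fin h) k)) (c : ℕ)
    (hc : irr k h ^ c ≤ K * J) (hJ : J ≤ irr k h)
    (hcl : IntClosed J ∨ (StableUnder (irr k h) J ∧ StableUnder K J)) :
    Module.finrank k (MvPolynomial (Fin h) k ⧸ (J ⊔ irr k h ^ 2)) ≤ cmType J + 1 ∧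
      cmType J ≤ cmType (K * J) ∧ (J ≤ irr k h ^ 2 → h ≤ cmType (K * J)) := by
  have hKJ : K * J ≤ J := Ideal.mul_le_right
  have hcJ : irr k h ^ c ≤ J := hc.trans hKJ
  have fin1 : Module.Finite k (MvPolynomial (Fin h) k ⧸ J) := finite_quot J c hcJ
  have fin2 : Module.Finite k (MvPolynomial (Fin h) k ⧸ (K * J)) := finite_quot (K * J) c hc
  have hst : StableUnder (irr k h) J ∧ StableUnder K J := by
    rcases hcl with hcl | hcl
    · have hirr : irr k h ≠ ⊥ := by
        intro hbot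
        have hm := X_mem_irr (k := k) (⟨0, hh⟩ : Fin h)
        rw [hbot, Ideal.mem_bot] at hm
        exact MvPolynomial.X_ne_zero _ hm
      refine ⟨hcl.stableUnder hirr, hcl.stableUnder ?_⟩
      rintro rfl
      rw [Ideal.bot_mul, le_bot_iff] at hc
      exact pow_ne_zero c hirr hc
    · exact hcl
  rw [cmType_eq, cmType_eq]
  have h1 := edim_le_soc J hJ hst.1
  have h2 := soc_le_mul K J hst.2
  refine ⟨h1, h2, fun hJ2 => ?_⟩
  have fin3 : Module.Finite k (MvPolynomial (Fin h) k ⧸ (J ⊔ irr k h ^ 2)) :=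
    finite_quot _ 2 le_sup_right
  have h3 := dim_sq (J ⊔ irr k h ^ 2) (sup_le hJ2 le_rfl)
  omega

end Pool.Agent.Results.MP_8f10f1_al.IntegrallyClosedFactor
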