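import Pool.Agent.H90.CMR.GorG

/-! Huneke's inequality `t(S/IJ) ≥ ht(IJ)` for squares of Gorenstein ideals and for flat limits of
pairs of ideals the first of which is the ideal of distinct points. -/

namespace Pool.Agent.Results.MP_8f10f1_al.SquareIdeals

open Pool.Agent.H6.CMT Pool.Agent.H48.CMS Pool.Agent.H74.GSq MvPolynomial

universe u

theorem result (k : Type u) [Field k] (n : ℕ)
    (I J : Ideal (MvPolynomial (Fin n) k)) (hI : I ≤ irr k n) (hJ : J ≤ irr k n)
    (ys : List (MvPolynomial (Fin n) k)) (hys : ∀ y ∈ ys, y ∈ irr k n)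
    (hreg : RingTheory.Sequence.IsRegular (MvPolynomial (Fin n) k ⧸ (I * J)) ys)
    (hdim : (I * J).height + ys.length = n)
    (h : (CharZero k ∧ I = J ∧ ∃ xs : List (MvPolynomial (Fin n) k),
        (∀ x ∈ xs, x ∈ irr k n) ∧ xs.length = ys.length ∧
        RingTheory.Sequence.IsRegular (MvPolynomial (Fin n) k ⧸ I) xs ∧
        cmType (I ⊔ Ideal.ofList xs) = 1) ∨
      (∃ c : ℕ, irr k n ^ c ≤ I * J) ∧
      ((I = J ∧ cmType I = 1 ∧
        ((n.factorial * Module.finrank k (MvPolynomial (Fin n) k ⧸ I) : ℕ) : k) ≠ 0) ∨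
      FlatLimitPair I J)) :
    (I * J).height ≤ cmType (I * J ⊔ Ideal.ofList ys) := by
  rcases h with ⟨hch, rfl, xs, hxs, hlen, hxreg, hgor⟩ | ⟨⟨c, hc⟩, h⟩
  · exact Pool.Agent.H90.CMR.gor_general I hI ys xs hys hxs hreg.1 hdim hlen hxreg.1 hgor
  · have hle : (I * J).height ≤ (n : ℕ∞) := by
      rw [← hdim]; exact le_self_add
    rcases Nat.eq_zero_or_pos n with h0 | hn
    · subst h0
      exact hle.trans (by simp)
    · have h0 : ys.length = 0 := Pool.Agent.H90.CMR.length_zero I J c hc ys hdim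
      rw [List.length_eq_zero_iff.1 h0, Ideal.ofList_nil, sup_bot_eq]
      refine hle.trans ?_
      have h1 : n ≤ cmType (I * J) := by
        rcases h with ⟨rfl, hG, hchar⟩ | h
        · exact gor_square I c (hc.trans Ideal.mul_le_left) hG hchar
        · exact h.type_le hn c hc hI hJ
      exact_mod_cast h1

end Pool.Agent.Results.MP_8f10f1_al.SquareIdeals
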